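import Mathlib
import Pool.Agent.QPI.Stmts
import Pool.Agent.Helper97_PGH.Wron

set_option autoImplicit false

/-!
# Row B_WRO: independent power series have a nonzero Wronskian for `z d/dz`
-/

namespace Pool.Agent.Helper64QPI

open Pool.Agent.QPI

variable {K : Type} [Field K]

theorem coeff_th (g : PowerSeries K) (n : ℕ) :
    PowerSeries.coeff n (th g) = (n : K) * PowerSeries.coeff n g := by
  unfold th
  rw [PowerSeries.coeff_mk]

theorem th_eq (g : PowerSeries K) : th g = PowerSeries.X * PowerSeries.derivative K g := by
  ext n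
  rw [coeff_th]
  cases n with
  | zero => simp
  | succ n =>
    rw [PowerSeries.coeff_succ_X_mul, PowerSeries.coeff_derivative]
    push_cast
    ring

theorem th_C_mul (k : K) (g : PowerSeries K) :
    th (PowerSeries.C k * g) = PowerSeries.C k * th g := by
  ext n
  rw [coeff_th, PowerSeries.coeff_C_mul, PowerSeries.coeff_C_mul, coeff_th]
  ring

theorem th_sub (g h : PowerSeries K) : th (g - h) = th g - th h := by
  ext n
  rw [coeff_th, map_sub, map_sub, coeff_th, coeff_th]
  ring

/-- lowest coefficient of a product -/
theorem coeff_low (F G : PowerSeries K) (m n : ℕ) (hF : ∀ i < m, PowerSeries.coeff i F = 0)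
    (hG : ∀ i < n, PowerSeries.coeff i G = 0) :
    PowerSeries.coeff (m + n) (F * G) = PowerSeries.coeff m F * PowerSeries.coeff n G := by
  rw [PowerSeries.coeff_mul]
  rw [Finset.sum_eq_single (m, n)]
  · intro b hb hne
    have h1 := Finset.HasAntidiagonal.mem_antidiagonal.1 hb
    rcases lt_or_ge b.1 m with h | h
    · rw [hF _ h, zero_mul]
    · have h2 : b.2 < n := by
        by_contra h3
        apply hne
        have h4 : b.1 = m := by omega
        have h5 : b.2 = n := by omega
        exact Prod.ext h4 h5
      rw [hG _ h2, mul_zero]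
  · intro h
    exact absurd (Finset.HasAntidiagonal.mem_antidiagonal.2 (show (m, n).1 + (m, n).2 = m + n from rfl)) h

theorem constants [CharZero K] (A B : PowerSeries K) (hB : B ≠ 0) (h : th A * B = A * th B) :
    ∃ k : K, A = PowerSeries.C k * B := by
  classical
  have hex : ∃ n, PowerSeries.coeff n B ≠ 0 := by
    by_contra h0
    push Not at h0
    apply hB
    ext n
    rw [h0 n, map_zero]
  set n := Nat.find hex with hn
  have hnb : PowerSeries.coeff n B ≠ 0 := Nat.find_spec hex
  have hlow : ∀ i < n, PowerSeries.coeff i B = 0 := fun i hi => by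
    by_contra h0
    exact Nat.find_min hex hi h0
  set k : K := PowerSeries.coeff n A / PowerSeries.coeff n B with hk
  refine ⟨k, ?_⟩
  by_contra hne
  set A' : PowerSeries K := A - PowerSeries.C k * B with hA'
  have hA0 : A' ≠ 0 := fun h0 => hne (sub_eq_zero.1 h0)
  have hrel : th A' * B = A' * th B := by
    rw [hA', th_sub, th_C_mul, sub_mul, sub_mul, h]
    ring
  have hcn : PowerSeries.coeff n A' = 0 := by
    rw [hA', map_sub, PowerSeries.coeff_C_mul, hk, div_mul_cancel₀ _ hnb, sub_self]
  have hexA : ∃ m, PowerSeries.coeff m A' ≠ 0 := by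
    by_contra h0
    push Not at h0
    apply hA0
    ext m
    rw [h0 m, map_zero]
  set m := Nat.find hexA with hm
  have hma : PowerSeries.coeff m A' ≠ 0 := Nat.find_spec hexA
  have hlowA : ∀ i < m, PowerSeries.coeff i A' = 0 := fun i hi => by
    by_contra h0
    exact Nat.find_min hexA hi h0
  have h1 : PowerSeries.coeff (m + n) (th A' * B) =
      (m : K) * PowerSeries.coeff m A' * PowerSeries.coeff n B := by
    rw [coeff_low (th A') B m n (fun i hi => by rw [coeff_th, hlowA i hi, mul_zero]) hlow,
      coeff_th]
  have h2 : PowerSeries.coeff (m + n) (A' * th B) =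
      PowerSeries.coeff m A' * ((n : K) * PowerSeries.coeff n B) := by
    rw [coeff_low A' (th B) m n hlowA (fun i hi => by rw [coeff_th, hlow i hi, mul_zero]),
      coeff_th]
  rw [hrel, h2] at h1
  have h3 : ((n : K) - (m : K)) * (PowerSeries.coeff m A' * PowerSeries.coeff n B) = 0 := by
    linear_combination h1
  have h4 : (n : K) - (m : K) = 0 := by
    rcases mul_eq_zero.1 h3 with h5 | h5
    · exact h5
    · exact absurd h5 (mul_ne_zero hma hnb)
  have h5 : n = m := by
    have := sub_eq_zero.1 h4
    exact_mod_cast this
  rw [h5] at hcn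
  exact hma hcn

theorem exists_ext (K E : Type) [Field K] [Field E] [Algebra (PowerSeries K) E]
    [IsFractionRing (PowerSeries K) E] :
    ∃ D : Derivation ℤ E E, ∀ a, D (algebraMap (PowerSeries K) E a) =
        algebraMap (PowerSeries K) E (th a) := by
  have : Algebra.FormallyEtale (PowerSeries K) E :=
    Algebra.FormallyEtale.of_isLocalization (nonZeroDivisors (PowerSeries K))
  let _ : Algebra K E := ((algebraMap (PowerSeries K) E).comp (algebraMap K (PowerSeries K))).toAlgebra
  have : IsScalarTower K (PowerSeries K) E := IsScalarTower.of_algebraMap_eq fun x => rfl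
  let D1 : Derivation K (PowerSeries K) E :=
    (Algebra.linearMap (PowerSeries K) E).compDer
      ((PowerSeries.X : PowerSeries K) • PowerSeries.derivative K)
  obtain ⟨D, hD⟩ := PGH.exists_deriv_ext K (PowerSeries K) E E D1
  refine ⟨Derivation.restrictScalars ℤ D, fun a => ?_⟩
  change D _ = _
  rw [hD a, th_eq]
  rfl

theorem main (K E : Type) [Field K] [CharZero K] [Field E] [Algebra (PowerSeries K) E]
    [IsFractionRing (PowerSeries K) E] (s : ℕ) (g : Fin s → PowerSeries K)
    (hg : LinearIndependent K g) :
    Matrix.det (Matrix.of fun a b : Fin s => th^[(a : ℕ)] (g b)) ≠ 0 := by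
  intro hdet
  obtain ⟨D, hD⟩ := exists_ext K E
  have hinj : Function.Injective (algebraMap (PowerSeries K) E) :=
    IsFractionRing.injective _ _
  have hiter : ∀ (l : ℕ) (a : PowerSeries K),
      (D : E → E)^[l] (algebraMap _ _ a) = algebraMap _ _ (th^[l] a) := by
    intro l
    induction l with
    | zero => intro a; rfl
    | succ l ih =>
      intro a
      rw [Function.iterate_succ_apply', Function.iterate_succ_apply', ih, hD]
  have hW : PGH.Wr D (fun b : Fin s => algebraMap (PowerSeries K) E (g b)) ≠ 0 := by
    apply PGH.Wr_ne_zero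
    intro c hc hsum
    have hk : ∀ i, ∃ k : K, c i = algebraMap (PowerSeries K) E (PowerSeries.C k) := by
      intro i
      obtain ⟨A, B, hB, hAB⟩ := IsFractionRing.div_surjective (A := PowerSeries K) (c i)
      have hB0 : B ≠ 0 := nonZeroDivisors.ne_zero hB
      have hB1 : algebraMap (PowerSeries K) E B ≠ 0 := by
        intro h0
        exact hB0 (hinj (by rw [h0, map_zero]))
      have h1 : algebraMap (PowerSeries K) E A = c i * algebraMap _ _ B := by
        rw [← hAB, div_mul_cancel₀ _ hB1]
      have h2 : algebraMap (PowerSeries K) E (th A) = c i * algebraMap _ _ (th B) := by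
        rw [← hD, h1, D.leibniz, hc i, smul_zero, add_zero, smul_eq_mul, hD]
      have h3 : th A * B = A * th B := by
        apply hinj
        rw [map_mul, map_mul, h1, h2]
        ring
      obtain ⟨k, hk⟩ := constants A B hB0 h3
      refine ⟨k, ?_⟩
      rw [← hAB, hk, map_mul, mul_div_assoc, div_self hB1, mul_one]
    choose k hk using hk
    have h4 : ∑ i, k i • g i = 0 := by
      apply hinj
      rw [map_sum, map_zero, ← hsum]
      refine Finset.sum_congr rfl fun i _ => ?_
      rw [hk i, ← map_mul, PowerSeries.smul_eq_C_mul]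
    have h5 := Fintype.linearIndependent_iff.1 hg k h4
    funext i
    rw [hk i, h5 i, map_zero, map_zero]
    rfl
  apply hW
  unfold PGH.Wr PGH.WM
  have h6 : (Matrix.of fun l i : Fin s =>
      (D : E → E)^[(l : ℕ)] (algebraMap (PowerSeries K) E (g i))) =
      (algebraMap (PowerSeries K) E).mapMatrix
        (Matrix.of fun a b : Fin s => th^[(a : ℕ)] (g b)) := by
    ext l i
    rw [Matrix.of_apply, hiter]
    rfl
  rw [h6, ← RingHom.map_det, hdet, map_zero]

theorem WRO : WroStmt := by
  intro K _ _ s g hg
  exact main K (FractionRing (PowerSeries K)) s g hg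

end Pool.Agent.Helper64QPI
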